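import Pool.Agent.Y209.FW.Dens

/-!
# The Baire category argument
-/

set_option autoImplicit false

open Topology Filter Set

namespace Pool.Agent.Y209.FW

/-- Points close to a good pair. -/
theorem no_sol (N K a b : ℤ) (hN : 2 ≤ N) (hK : 1 ≤ K) (hg : Good K N a b) (α β η s : ℝ)
    (hs1 : s ≤ 1) (hη : η * (N:ℝ) ^ 2 ≤ s) (hα : |α - a / N| < η) (hβ : |β - b / N| < η)
    (p r q : ℤ) (hq1 : 1 ≤ q) (hq2 : q < N) :
    (1 - s) ^ 2 * K / (N:ℝ) ^ 2 ≤ |p + q * α| * |r + q * β| := by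
  have hNR : (2:ℝ) ≤ N := by exact_mod_cast hN
  have hNpos : (0:ℝ) < N := by linarith
  have hη0 : 0 < η := lt_of_le_of_lt (abs_nonneg _) hα
  have hs0 : 0 ≤ s := le_trans (by positivity) hη
  have hG := hg q p r hq1 hq2
  have hX : 1 ≤ |p * N + q * a| := by
    by_contra h
    have : |p * N + q * a| = 0 := le_antisymm (by omega) (abs_nonneg _)
    rw [this] at hG
    omega
  have hY : 1 ≤ |r * N + q * b| := by
    by_contra h
    have : |r * N + q * b| = 0 := le_antisymm (by omega) (abs_nonneg _)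
    rw [this] at hG
    omega
  have hGR : (K:ℝ) ≤ (|p * N + q * a| : ℤ) * (|r * N + q * b| : ℤ) := by exact_mod_cast hG
  have hXR : (1:ℝ) ≤ (|p * N + q * a| : ℤ) := by exact_mod_cast hX
  have hYR : (1:ℝ) ≤ (|r * N + q * b| : ℤ) := by exact_mod_cast hY
  have low : ∀ (p a : ℤ) (α : ℝ), |α - a / N| < η → (1:ℝ) ≤ (|p * N + q * a| : ℤ) →
      (1 - s) * (((|p * N + q * a| : ℤ) : ℝ) / N) ≤ |p + q * α| := by
    intro p a α hα hX
    have e : (p:ℝ) + q * α = ((p * N + q * a : ℤ) : ℝ) / N + q * (α - a / N) := by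
      push_cast
      field_simp
      ring
    have h1 : |((p * N + q * a : ℤ) : ℝ) / N| - |q * (α - a / N)| ≤ |(p:ℝ) + q * α| := by
      rw [e]
      have := abs_sub_abs_le_abs_sub (((p * N + q * a : ℤ) : ℝ) / N) (-(q * (α - a / N)))
      rw [abs_neg, sub_neg_eq_add] at this
      exact this
    have h2 : |((p * N + q * a : ℤ) : ℝ) / N| = (((|p * N + q * a| : ℤ) : ℝ) / N) := by
      rw [abs_div, abs_of_pos hNpos, Int.cast_abs]
    have h3 : |q * (α - a / N)| ≤ s / N := by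
      rw [abs_mul]
      have hqR : |(q:ℝ)| ≤ N := by
        rw [abs_of_pos (by exact_mod_cast hq1)]
        exact_mod_cast hq2.le
      calc |(q:ℝ)| * |α - a / N| ≤ N * η := mul_le_mul hqR hα.le (abs_nonneg _) hNpos.le
        _ = η * (N:ℝ) ^ 2 / N := by field_simp
        _ ≤ s / N := by gcongr
    have h4 : s / (N:ℝ) ≤ s * (((|p * N + q * a| : ℤ) : ℝ) / N) := by
      rw [show s / (N:ℝ) = s * (1 / N) by ring]
      gcongr
    rw [h2] at h1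
    linarith
  have l1 := low p a α hα hXR
  have l2 := low r b β hβ hYR
  have hs' : 0 ≤ 1 - s := by linarith
  have l3 : (1 - s) * (((|p * N + q * a| : ℤ) : ℝ) / N) * ((1 - s) * (((|r * N + q * b| : ℤ) : ℝ) / N))
      ≤ |p + q * α| * |r + q * β| :=
    mul_le_mul l1 l2 (by positivity) (abs_nonneg _)
  refine le_trans ?_ l3
  have e : (1 - s) * (((|p * N + q * a| : ℤ) : ℝ) / N) * ((1 - s) * (((|r * N + q * b| : ℤ) : ℝ) / N))
      = (1 - s) ^ 2 * (((|p * N + q * a| : ℤ) : ℝ) * ((|r * N + q * b| : ℤ) : ℝ)) / (N:ℝ) ^ 2 := by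
    field_simp
  rw [e]
  gcongr

/-- Points close to a good pair: a very good solution at `T = N`. -/
theorem sol (N a b : ℤ) (hN : 2 ≤ N) (α β η : ℝ)
    (hα : |α - a / N| < η) (hβ : |β - b / N| < η) :
    |((-a : ℤ) : ℝ) + N * α| * |((-b : ℤ) : ℝ) + N * β| < (N:ℝ) ^ 2 * η ^ 2 := by
  have hNR : (2:ℝ) ≤ N := by exact_mod_cast hN
  have hNpos : (0:ℝ) < N := by linarith
  have e : ∀ (a : ℤ) (α : ℝ), |((-a : ℤ) : ℝ) + N * α| = N * |α - a / N| := by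
    intro a α
    rw [← abs_of_pos hNpos, ← abs_mul, abs_of_pos hNpos]
    congr 1
    push_cast
    field_simp
    ring
  rw [e, e]
  have : |α - a / N| * |β - b / N| < η * η :=
    mul_lt_mul'' hα hβ (abs_nonneg _) (abs_nonneg _)
  have h2 : (0:ℝ) < (N:ℝ) ^ 2 := by positivity
  calc N * |α - a / N| * (N * |β - b / N|) = (N:ℝ) ^ 2 * (|α - a / N| * |β - b / N|) := by ring
    _ < (N:ℝ) ^ 2 * (η * η) := mul_lt_mul_of_pos_left this h2
    _ = (N:ℝ) ^ 2 * η ^ 2 := by ring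

/-- radius used around a good pair -/
noncomputable def rad (ψ : ℝ → ℝ) (n : ℕ) (N : ℤ) : ℝ :=
  min (1 / ((n + 1) * (N:ℝ) ^ 2)) (ψ N / (N:ℝ) ^ 2)

/-- the open sets of the Baire argument -/
def U (ψ : ℝ → ℝ) (n : ℕ) : Set (ℝ × ℝ) :=
  ⋃ (c : ℤ × ℤ × ℤ × ℤ) (_ : 2 ≤ c.1 ∧ (n : ℤ) ≤ c.1 ∧ 1 ≤ c.2.1 ∧
      (3 - √5) / 2 * (c.1 : ℝ) ≤ c.2.1 ∧ Good c.2.1 c.1 c.2.2.1 c.2.2.2),
    {x : ℝ × ℝ | |x.1 - c.2.2.1 / c.1| < rad ψ n c.1 ∧ |x.2 - c.2.2.2 / c.1| < rad ψ n c.1}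

theorem rad_pos (ψ : ℝ → ℝ) (hψ : ∀ x, 0 < ψ x) (n : ℕ) (N : ℤ) (hN : 2 ≤ N) : 0 < rad ψ n N := by
  have h : (2:ℝ) ≤ N := by exact_mod_cast hN
  have h1 := hψ N
  unfold rad
  apply lt_min <;> positivity

theorem U_open (ψ : ℝ → ℝ) (n : ℕ) : IsOpen (U ψ n) := by
  unfold U
  refine isOpen_iUnion fun c => isOpen_iUnion fun _ => ?_
  have h1 : IsOpen {x : ℝ × ℝ | |x.1 - c.2.2.1 / c.1| < rad ψ n c.1} :=
    isOpen_lt (f := fun x : ℝ × ℝ => |x.1 - c.2.2.1 / c.1|) (by fun_prop) continuous_const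
  have h2 : IsOpen {x : ℝ × ℝ | |x.2 - c.2.2.2 / c.1| < rad ψ n c.1} :=
    isOpen_lt (f := fun x : ℝ × ℝ => |x.2 - c.2.2.2 / c.1|) (by fun_prop) continuous_const
  exact h1.inter h2

theorem U_dense
    (hcop : ∀ p : ℕ, p.Prime → 17 ≤ p → ∀ a d : ℤ, IsCoprime d (Nat.fib p : ℤ) →
      ∃ i : ℕ, i < p ∧ IsCoprime (a + i * d) (Nat.fib p : ℤ))
    (ψ : ℝ → ℝ) (hψ : ∀ x, 0 < ψ x) (n : ℕ) : Dense (U ψ n) := by
  rw [Metric.dense_iff]
  intro x δ hδ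
  obtain ⟨N, K, a, b, h1, h2, h3, h3', h3'', h4, h5⟩ := good_dense hcop x.1 x.2 δ hδ n
  refine ⟨((a:ℝ)/N, (b:ℝ)/N), ?_, ?_⟩
  · rw [Metric.mem_ball, Prod.dist_eq, max_lt_iff, Real.dist_eq, Real.dist_eq]
    exact ⟨h4, h5⟩
  · unfold U
    simp only [mem_iUnion]
    refine ⟨(N, K, a, b), ⟨h1, h2, h3, h3', h3''⟩, ?_⟩
    simp [rad_pos ψ hψ n N h1]

/-- The residual set. -/
theorem res
    (hcop : ∀ p : ℕ, p.Prime → 17 ≤ p → ∀ a d : ℤ, IsCoprime d (Nat.fib p : ℤ) →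
      ∃ i : ℕ, i < p ∧ IsCoprime (a + i * d) (Nat.fib p : ℤ))
    (ψ : ℝ → ℝ) (hψ : ∀ t, 0 < ψ t) :
    {x : ℝ × ℝ | (∀ B : ℝ, ∃ T : ℝ, B < T ∧ 0 < T ∧ ∃ p r q : ℤ, 1 ≤ q ∧ (q : ℝ) ≤ T ∧
        |(p : ℝ) + q * x.1| * |(r : ℝ) + q * x.2| < ψ T) ∧
      (∀ ε : ℝ, ε < (3 - √5) / 2 → ∀ B : ℝ, ∃ T : ℝ, B < T ∧ 0 < T ∧
        ∀ p r q : ℤ, 1 ≤ q → (q : ℝ) ≤ T → ε / T ≤ |(p : ℝ) + q * x.1| * |(r : ℝ) + q * x.2|)}
      ∈ residual (ℝ × ℝ) := by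
  set χ : ℝ → ℝ := fun t => min 1 (ψ t) with hχ
  have hχ0 : ∀ t, 0 < χ t := fun t => lt_min one_pos (hψ t)
  have h0 : ∀ n : ℕ, U χ n ∈ residual (ℝ × ℝ) := fun n =>
    residual_of_dense_open (U_open _ n) (U_dense hcop _ hχ0 n)
  refine Filter.mem_of_superset (countable_iInter_mem.mpr h0) ?_
  intro x hx
  simp only [mem_iInter] at hx
  have hx' : ∀ n : ℕ, ∃ N K a b : ℤ, 2 ≤ N ∧ (n : ℤ) ≤ N ∧ 1 ≤ K ∧
      (3 - √5) / 2 * (N : ℝ) ≤ K ∧ Good K N a b ∧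
      ∃ η : ℝ, 0 < η ∧ η * (N:ℝ) ^ 2 ≤ 1 / (n + 1) ∧ η ≤ χ N / (N:ℝ) ^ 2 ∧
      |x.1 - a / N| < η ∧ |x.2 - b / N| < η := by
    intro n
    have h := hx n
    simp only [U, mem_iUnion] at h
    obtain ⟨⟨N, K, a, b⟩, ⟨h1, h2, h3, h3', h3''⟩, h4, h5⟩ := h
    simp only at h1 h2 h3 h3' h3'' h4 h5
    have hN : (2:ℝ) ≤ N := by exact_mod_cast h1
    refine ⟨N, K, a, b, h1, h2, h3, h3', h3'', rad χ n N, rad_pos _ hχ0 n N h1, ?_,
      min_le_right _ _, h4, h5⟩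
    have h6 : rad χ n N ≤ 1 / ((n + 1) * (N:ℝ) ^ 2) := min_le_left _ _
    have h7 : (0:ℝ) < (N:ℝ) ^ 2 := by positivity
    calc rad χ n N * (N:ℝ) ^ 2 ≤ 1 / (((n:ℝ) + 1) * (N:ℝ) ^ 2) * (N:ℝ) ^ 2 := by gcongr
      _ = 1 / ((n:ℝ) + 1) := by field_simp
  constructor
  · intro B
    obtain ⟨n, hn⟩ := exists_nat_gt B
    obtain ⟨N, K, a, b, h1, h2, -, -, -, η, hη, h4, h5, h6, h7⟩ := hx' n
    have hN : (2:ℝ) ≤ N := by exact_mod_cast h1
    have hnN : (n:ℝ) ≤ N := by exact_mod_cast h2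
    refine ⟨N, by linarith, by linarith, -a, -b, N, by omega, le_rfl, ?_⟩
    refine lt_of_lt_of_le (sol N a b h1 x.1 x.2 η h6 h7) ?_
    have hN2 : (1:ℝ) ≤ (N:ℝ) ^ 2 := by nlinarith
    have hN3 : (0:ℝ) < (N:ℝ) ^ 2 := by linarith
    have hη1 : η ≤ 1 := by
      refine h5.trans ?_
      rw [div_le_iff₀ hN3]
      linarith [min_le_left 1 (ψ N)]
    have hη2 : (N:ℝ) ^ 2 * η ≤ ψ N := by
      rw [le_div_iff₀ hN3] at h5
      linarith [min_le_right 1 (ψ N)]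
    nlinarith [mul_le_mul_of_nonneg_left hη1 (by positivity : (0:ℝ) ≤ (N:ℝ) ^ 2 * η)]
  · intro ε hε B
    have h5 : √5 * √5 = 5 := Real.mul_self_sqrt (by norm_num)
    have h51 : 1 ≤ √5 := by
      rw [show (1:ℝ) = √1 by simp]
      exact Real.sqrt_le_sqrt (by norm_num)
    have h53 : √5 < 3 := by nlinarith [Real.sqrt_nonneg 5]
    set c : ℝ := (3 - √5) / 2 with hc
    have hc0 : 0 < c := by linarith
    have hc1 : c ≤ 1 := by linarith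
    obtain ⟨n, hn⟩ := exists_nat_gt (max (max (B + 2) 3) (3 / (c - ε)))
    have hn1 : B + 2 < n := lt_of_le_of_lt ((le_max_left _ _).trans (le_max_left _ _)) hn
    have hn2 : (3:ℝ) < n := lt_of_le_of_lt ((le_max_right _ _).trans (le_max_left _ _)) hn
    have hn3 : 3 / (c - ε) < n := lt_of_le_of_lt (le_max_right _ _) hn
    obtain ⟨N, K, a, b, h1, h2, hK, hcK, hgood, η, hη, h4, -, h6, h7⟩ := hx' n
    have hN : (2:ℝ) ≤ N := by exact_mod_cast h1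
    have hnN : (n:ℝ) ≤ N := by exact_mod_cast h2
    refine ⟨(N:ℝ) - 1, by linarith, by linarith, ?_⟩
    intro p r q hq1 hq2
    have hq3 : q < N := by
      have : (q:ℝ) < N := by linarith
      exact_mod_cast this
    have hn0 : (0:ℝ) < n := by linarith
    have hs1 : 1 / ((n:ℝ) + 1) ≤ 1 := by
      rw [div_le_one (by linarith)]
      linarith
    have hsn : 1 / ((n:ℝ) + 1) ≤ 1 / n := by gcongr; linarith
    have hs := no_sol N K a b h1 hK hgood x.1 x.2 η (1 / (n + 1)) hs1 h4 h6 h7 p r q hq1 hq3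
    refine le_trans ?_ hs
    have hN1 : (0:ℝ) < (N:ℝ) - 1 := by linarith
    have hNpos : (0:ℝ) < N := by linarith
    rw [div_le_div_iff₀ hN1 (by positivity)]
    have hu : 1 / (n:ℝ) < 1 / 3 := by
      rw [div_lt_div_iff₀ hn0 (by norm_num)]
      linarith
    have hu0 : 0 < 1 / (n:ℝ) := by positivity
    set u : ℝ := 1 / (n:ℝ) with hu_def
    have k1 : (1 - u) ^ 2 ≤ (1 - 1 / ((n:ℝ) + 1)) ^ 2 := by
      apply pow_le_pow_left₀ (by linarith)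
      linarith
    have k2 : (1 - u) * (N:ℝ) ≤ (N:ℝ) - 1 := by
      have : 1 ≤ u * N := by
        rw [hu_def, one_div, inv_mul_eq_div, le_div_iff₀ hn0]
        linarith
      linarith
    have k3 : ε ≤ (1 - 3 * u) * c := by
      have hcε : 0 < c - ε := by linarith
      have h8 : 3 * u < c - ε := by
        rw [div_lt_iff₀ hcε] at hn3
        rw [hu_def]
        have : 3 * (1 / (n:ℝ)) = 3 / n := by ring
        rw [this, div_lt_iff₀ hn0]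
        linarith
      nlinarith
    have k4 : (1 - 3 * u) ≤ (1 - u) ^ 3 := by nlinarith [mul_pos hu0 hu0]
    have k5 : ε * (N:ℝ) ^ 2 ≤ (1 - u) ^ 3 * c * (N:ℝ) ^ 2 := by
      have : ε ≤ (1 - u) ^ 3 * c := k3.trans (mul_le_mul_of_nonneg_right k4 hc0.le)
      exact mul_le_mul_of_nonneg_right this (by positivity)
    have k6 : (1 - u) ^ 3 * c * (N:ℝ) ^ 2 ≤ (1 - u) ^ 2 * K * ((1 - u) * N) := by
      have h9 : (1 - u) ^ 3 * (N:ℝ) * (c * N) ≤ (1 - u) ^ 3 * (N:ℝ) * K :=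
        mul_le_mul_of_nonneg_left hcK (by
          have : 0 ≤ 1 - u := by linarith
          positivity)
      nlinarith
    have hK0 : (0:ℝ) ≤ K := by
      have : (1:ℝ) ≤ K := by exact_mod_cast hK
      linarith
    have k7 : (1 - u) ^ 2 * K * ((1 - u) * N) ≤ (1 - 1 / ((n:ℝ) + 1)) ^ 2 * K * ((N:ℝ) - 1) := by
      have g0 : 0 ≤ (1 - u) * (N:ℝ) := mul_nonneg (by linarith) hNpos.le
      exact mul_le_mul (mul_le_mul_of_nonneg_right k1 hK0) k2 g0 (by positivity)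
    linarith

end Pool.Agent.Y209.FW
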