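import Mathlib

/-!
# The best constant for Fibonacci denominators
-/

set_option autoImplicit false

namespace Pool.Agent.Y209.FW

/-- Fibonacci numbers as integers. -/
def F (n : ℕ) : ℤ := (Nat.fib n : ℤ)

theorem F_add_two (n : ℕ) : F (n + 2) = F n + F (n + 1) := by
  simp [F, Nat.fib_add_two]

theorem F_nonneg (n : ℕ) : 0 ≤ F n := by simp [F]

theorem F_pos {n : ℕ} (h : 0 < n) : 1 ≤ F n := by
  have := Nat.fib_pos.2 h
  simp only [F]
  exact_mod_cast this

theorem F_mono {m n : ℕ} (h : m ≤ n) : F m ≤ F n := by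
  simp only [F]
  exact_mod_cast Nat.fib_mono h

theorem F_add (m n : ℕ) : F (m + n + 1) = F m * F n + F (m + 1) * F (n + 1) := by
  simp only [F]
  exact_mod_cast Nat.fib_add m n

/-- Best approximation step. -/
theorem step (q q' r r' α β : ℤ) (hq : 0 ≤ q) (_hq : 1 ≤ q') (hr : 1 ≤ r)
    (hr' : 0 ≤ r') (hx1 : 1 ≤ α * q + β * q') (hx2 : α * q + β * q' < q') :
    r ≤ |α * r - β * r'| := by
  rcases le_or_gt β 0 with hβ | hβ
  · have hα : 1 ≤ α := by
      by_contra h
      push Not at h
      have h1 : α ≤ 0 := by omega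
      nlinarith [mul_nonneg (neg_nonneg.mpr h1) hq, mul_nonneg (neg_nonneg.mpr hβ) (by linarith : (0:ℤ) ≤ q')]
    refine le_trans ?_ (le_abs_self _)
    nlinarith [mul_nonneg (neg_nonneg.mpr hβ) hr', mul_nonneg (sub_nonneg.mpr hα) (by linarith : (0:ℤ) ≤ r)]
  · have hα : α ≤ -1 := by
      by_contra h
      push Not at h
      have h1 : 0 ≤ α := by omega
      nlinarith [mul_nonneg h1 hq, mul_nonneg (by linarith : (0:ℤ) ≤ β - 1) (by linarith : (0:ℤ) ≤ q')]
    refine le_trans ?_ (neg_le_abs _)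
    nlinarith [mul_nonneg (by linarith : (0:ℤ) ≤ β) hr', mul_nonneg (by linarith : (0:ℤ) ≤ -1 - α) (by linarith : (0:ℤ) ≤ r)]

/-- The product bound `F (n - 2) ≤ F k * F (n - k)`. -/
theorem prod_bound (k l : ℕ) : F (k + l + 1) ≤ F (k + 2) * F (l + 1) := by
  rw [F_add, F_add_two k, add_mul]
  have h1 := F_mono (Nat.le_succ l)
  have h2 : F k * F l ≤ F k * F (l + 1) := mul_le_mul_of_nonneg_left h1 (F_nonneg k)
  linarith

/-- The chain lemma for the words of ones. -/
theorem chain (j : ℕ) : ∀ (i : ℕ) (α β : ℤ), F (i + 2) ≤ α * F (i + 2) + β * F (i + 3) →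
    α * F (i + 2) + β * F (i + 3) < F (i + j + 3) →
    F (i + j + 1) ≤ (α * F (i + 2) + β * F (i + 3)) * |α * F (j + 1) - β * F j| := by
  induction j with
  | zero =>
    intro i α β h1 h2
    have hs := step (F (i + 2)) (F (i + 3)) (F 1) (F 0) α β (F_nonneg _) (F_pos (by omega))
      (by simp [F]) (by simp [F]) (le_trans (F_pos (by omega)) h1) h2
    have h3 := prod_bound i 0
    have h0 := F_nonneg (i + 2)
    have h4 : F (i + 2) * F 1 ≤ (α * F (i + 2) + β * F (i + 3)) * |α * F (0 + 1) - β * F 0| :=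
      mul_le_mul h1 hs (by simp [F]) (le_trans h0 h1)
    exact h3.trans h4
  | succ j ih =>
    intro i α β h1 h2
    rcases lt_or_ge (α * F (i + 2) + β * F (i + 3)) (F (i + 3)) with h6 | h6
    · have hs := step (F (i + 2)) (F (i + 3)) (F (j + 2)) (F (j + 1)) α β (F_nonneg _)
        (F_pos (by omega)) (F_pos (by omega)) (F_nonneg _) (le_trans (F_pos (by omega)) h1) h6
      have h3 := prod_bound i (j + 1)
      have h0 := F_nonneg (i + 2)
      have h4 : F (i + 2) * F (j + 2) ≤
          (α * F (i + 2) + β * F (i + 3)) * |α * F (j + 1 + 1) - β * F (j + 1)| :=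
        mul_le_mul h1 hs (F_nonneg _) (le_trans h0 h1)
      exact h3.trans h4
    · have e1 : (β - α) * F (i + 1 + 2) + α * F (i + 1 + 3) = α * F (i + 2) + β * F (i + 3) := by
        have := F_add_two (i + 2)
        rw [show i + 1 + 2 = i + 3 by omega, show i + 1 + 3 = i + 2 + 2 by omega, this,
          show i + 2 + 1 = i + 3 by omega]
        ring
      have e2 : |(β - α) * F (j + 1) - α * F j| = |α * F (j + 1 + 1) - β * F (j + 1)| := by
        rw [← abs_neg, F_add_two j]
        congr 1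
        ring
      have ih' := ih (i + 1) (β - α) α (by rw [e1]; exact h6)
        (by rw [e1, show i + 1 + j + 3 = i + (j + 1) + 3 by omega]; exact h2)
      rw [e1, e2, show i + 1 + j + 1 = i + (j + 1) + 1 by omega] at ih'
      exact ih'

/-- The constant of Fibonacci denominators. -/
theorem fib_best (j : ℕ) (x y : ℤ) (hx : 1 ≤ x) (hx2 : x < F (j + 3)) :
    F (j + 1) ≤ x * |x * F (j + 2) - y * F (j + 3)| := by
  have e1 : (2 * y - x) * F (0 + 2) + (x - y) * F (0 + 3) = x := by
    simp [F, Nat.fib_add_two]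
    ring
  have e2 : |(2 * y - x) * F (j + 1) - (x - y) * F j| = |x * F (j + 2) - y * F (j + 3)| := by
    rw [← abs_neg, F_add_two (j + 1), F_add_two j]
    congr 1
    ring
  have h := chain j 0 (2 * y - x) (x - y) (by rw [e1]; simpa [F] using hx)
    (by rw [e1]; simpa using hx2)
  rw [e1, e2] at h
  simpa using h

end Pool.Agent.Y209.FW
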