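import Pool.Agent.Y209.FW.Good

/-!
# Density of good rational pairs: the main statement
-/

set_option autoImplicit false

namespace Pool.Agent.Y209.FW

theorem F_mul_le (m d : ℕ) : F (m + 1) * F d ≤ F (m + d + 1) := by
  rw [F_add]
  have h1 := F_mono (Nat.le_succ d)
  have h2 := mul_nonneg (F_nonneg m) (F_nonneg d)
  have h3 := mul_le_mul_of_nonneg_left h1 (F_nonneg (m + 1))
  have h4 : F (m + 1) * F (d.succ) = F (m + 1) * F (d + 1) := rfl
  linarith

theorem F_mul_le' (m d : ℕ) : F (m + 1) * F (d + 1) ≤ F (m + d + 1) := by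
  rw [F_add]
  have h2 := mul_nonneg (F_nonneg m) (F_nonneg d)
  linarith

theorem coprime_F (p k : ℕ) (hp : p.Prime) (hk : k + 1 < p) : IsCoprime (F (k + 1)) (F p) := by
  simp only [F]
  rw [Nat.isCoprime_iff_coprime, Nat.Coprime, ← Nat.fib_gcd]
  have : Nat.gcd (k + 1) p = 1 := by
    have h1 : Nat.Coprime p (k + 1) := (Nat.Prime.coprime_iff_not_dvd hp).2
      (fun h => absurd (Nat.le_of_dvd (by omega) h) (by omega))
    exact h1.symm
  rw [this]
  rfl

/-- Density of good rational pairs. -/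
theorem good_dense
    (hcop : ∀ p : ℕ, p.Prime → 17 ≤ p → ∀ a d : ℤ, IsCoprime d (Nat.fib p : ℤ) →
      ∃ i : ℕ, i < p ∧ IsCoprime (a + i * d) (Nat.fib p : ℤ))
    (x y δ : ℝ) (hδ : 0 < δ) (n : ℕ) :
    ∃ N K a b : ℤ, 2 ≤ N ∧ (n : ℤ) ≤ N ∧ 1 ≤ K ∧ (3 - √5) / 2 * (N : ℝ) ≤ K ∧ Good K N a b ∧
      |(a : ℝ) / N - x| < δ ∧ |(b : ℝ) / N - y| < δ := by
  -- the constants
  obtain ⟨m, hm⟩ : ∃ m : ℕ, max 5 (4 / δ) < m := exists_nat_gt _
  have hm5 : 5 < m := by exact_mod_cast lt_of_le_of_lt (le_max_left _ _) hm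
  have hmδ : 4 / δ < m := lt_of_le_of_lt (le_max_right _ _) hm
  obtain ⟨M, hM⟩ : ∃ M : ℕ, max (max (12 / δ) (n + 17 : ℝ)) (m + 6 + 4 * F (m + 1) / δ) < M :=
    exists_nat_gt _
  have hM1 : 12 / δ < M := lt_of_le_of_lt ((le_max_left _ _).trans (le_max_left _ _)) hM
  have hM2 : n + 17 < M := by
    exact_mod_cast lt_of_le_of_lt ((le_max_right _ _).trans (le_max_left _ _)) hM
  have hM3 : m + 6 + 4 * (F (m + 1) : ℝ) / δ < M := lt_of_le_of_lt (le_max_right _ _) hM
  obtain ⟨p, hpM, hp⟩ := Nat.exists_infinite_primes (2 * M)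
  have hFm : (0:ℝ) ≤ 4 * (F (m + 1) : ℝ) / δ := by
    have : (0:ℝ) ≤ F (m + 1) := by exact_mod_cast F_nonneg _
    positivity
  have hmM : m + 6 < M := by
    have : ((m:ℝ) + 6) < M := by linarith
    exact_mod_cast this
  -- the indices
  obtain ⟨d, hd⟩ : ∃ d, p = m + d + 1 := ⟨p - (m + 1), by omega⟩
  obtain ⟨k, hk⟩ : ∃ k, k = p / 2 := ⟨_, rfl⟩
  obtain ⟨e, he⟩ : ∃ e, p = k + e + 1 := ⟨p - (k + 1), by omega⟩
  have hkM : M ≤ k := by omega
  have hodd : p % 2 = 1 := by
    rcases hp.eq_two_or_odd with h | h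
    · omega
    · exact h
  have hke : e = k := by omega
  obtain ⟨i₀, hi₀⟩ : ∃ i, p = 2 * i + 3 := ⟨(p - 3) / 2, by omega⟩
  set N : ℤ := F p with hN
  set g : ℤ := F (p - 1) with hg
  have hdg : F (m + d) = g := by rw [hg]; congr 1; omega
  have heg : F (k + e) = g := by rw [hg]; congr 1; omega
  have hNp : (p : ℝ) ≤ N := le_F p (by omega)
  have hpR : (2 * M : ℝ) ≤ p := by exact_mod_cast hpM
  have hMpos : (17:ℝ) < M := by
    have : (17 : ℕ) < M := by omega
    exact_mod_cast this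
  have hNpos : (0:ℝ) < N := by linarith
  have hN17 : 2 ≤ N := by
    have : (2:ℝ) ≤ N := by linarith
    exact_mod_cast this
  -- the multiplier
  have hmult : ∀ x y : ℤ, 1 ≤ x → x < N → F (2 * i₀ + 1) ≤ x * |x * g - y * N| := by
    intro x y hx hx2
    have := fib_best (2 * i₀) x y hx (by rw [← hi₀]; exact hx2)
    rw [← hi₀, show 2 * i₀ + 2 = p - 1 by omega] at this
    exact this
  -- first approximation
  set φ : ℝ := ((F (m + 1) * g - F m * N : ℤ) : ℝ) / N with hφ
  have hφabs : |φ| = (F d : ℝ) / N := by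
    have := docagne_abs m d
    rw [hdg, ← hd] at this
    rw [hφ, abs_div, abs_of_pos hNpos, ← Int.cast_abs, this]
  have hFdpos : (1:ℝ) ≤ F d := by exact_mod_cast F_pos (by omega)
  have hφ0 : φ ≠ 0 := by
    intro h
    rw [h, abs_zero] at hφabs
    have : 0 < (F d : ℝ) / N := by positivity
    linarith
  set a0 : ℤ := ⌊x * N⌋ with ha0
  obtain ⟨j, t, hj, hjt⟩ := multiples φ (y - g * a0 / N) hφ0
  -- coprimality
  have hs : IsCoprime (F (k + 1)) (F p) := coprime_F p k hp (by omega)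
  obtain ⟨i, hip, hcopi⟩ := hcop p hp (by omega) (a0 + j * F (m + 1)) (F (k + 1)) hs
  set a : ℤ := a0 + j * F (m + 1) + i * F (k + 1) with ha
  set t' : ℤ := -(j * F m) - i * F k - t with ht'
  -- size estimates
  have hFm1 : 4 / δ < (F (m + 1) : ℝ) := by
    have h1 : ((m + 1 : ℕ) : ℝ) ≤ F (m + 1) := le_F (m + 1) (by omega)
    push_cast at h1
    linarith
  have hFm1pos : (0:ℝ) < F (m + 1) := lt_trans (by positivity) hFm1
  have b1 : |φ| < δ / 4 := by
    rw [hφabs, div_lt_iff₀ hNpos]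
    have h1 : (F (m + 1) : ℝ) * F d ≤ N := by
      have := F_mul_le m d
      rw [← hd] at this
      exact_mod_cast this
    have h2 : 1 < δ / 4 * F (m + 1) := by
      rw [div_lt_iff₀ hδ] at hFm1
      linarith
    have h3 : (F d : ℝ) * 1 < F d * (δ / 4 * F (m + 1)) := mul_lt_mul_of_pos_left h2 (by linarith)
    nlinarith
  have hkR : (12:ℝ) / δ < k := lt_of_lt_of_le hM1 (by exact_mod_cast hkM)
  have hkpos : (0:ℝ) < k := lt_trans (by positivity) hkR
  have hpk : (p : ℝ) ≤ 3 * k := by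
    have : p ≤ 3 * k := by omega
    exact_mod_cast this
  have hFk : (k:ℝ) ^ 2 ≤ F k := sq_le_F k (by omega)
  have hFk1 : (F k : ℝ) ≤ F (k + 1) := by exact_mod_cast F_mono (Nat.le_succ k)
  have hkδ : 3 < δ / 4 * k := by
    rw [div_lt_iff₀ hδ] at hkR
    linarith
  have hpF : (p : ℝ) < δ / 4 * F (k + 1) := by
    have h1 : 3 * (k:ℝ) < δ / 4 * k * k := mul_lt_mul_of_pos_right hkδ hkpos
    have h2 : δ / 4 * (k:ℝ) ^ 2 ≤ δ / 4 * F (k + 1) :=
      mul_le_mul_of_nonneg_left (hFk.trans hFk1) (by positivity)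
    nlinarith
  have hiR : (i : ℝ) ≤ p := by exact_mod_cast hip.le
  have hi0 : (0:ℝ) ≤ i := by positivity
  have hj0 : (0:ℝ) ≤ j := by positivity
  set φk : ℝ := ((F (k + 1) * g - F k * N : ℤ) : ℝ) / N with hφk
  have hφkabs : |φk| = (F e : ℝ) / N := by
    have := docagne_abs k e
    rw [heg, ← he] at this
    rw [hφk, abs_div, abs_of_pos hNpos, ← Int.cast_abs, this]
  have b2 : |i * φk| < δ / 4 := by
    rw [abs_mul, abs_of_nonneg hi0, hφkabs, ← mul_div_assoc, div_lt_iff₀ hNpos]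
    have h1 : (F (k + 1) : ℝ) * F e ≤ N := by
      have := F_mul_le k e
      rw [← he] at this
      exact_mod_cast this
    have hFe : (1:ℝ) ≤ F e := by exact_mod_cast F_pos (by omega)
    have h2 : (i:ℝ) * F e ≤ p * F e := mul_le_mul_of_nonneg_right hiR (by linarith)
    have h3 : (p:ℝ) * F e < δ / 4 * F (k + 1) * F e := mul_lt_mul_of_pos_right hpF (by linarith)
    have h4 : δ / 4 * (F (k + 1) * F e) ≤ δ / 4 * N := mul_le_mul_of_nonneg_left h1 (by positivity)
    nlinarith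
  have b3 : (j:ℝ) * F (m + 1) / N < δ / 4 := by
    have h1 : (j:ℝ) ≤ N / F d := by
      rw [hφabs, one_div_div] at hj
      exact hj
    have h2 : (F (m + 1) : ℝ) < δ / 4 * F d := by
      have h3 : ((d : ℕ) : ℝ) ≤ F d := le_F d (by omega)
      have h4 : 4 * (F (m + 1) : ℝ) / δ < d := by
        have h5 : ((m:ℝ) + d + 1) = p := by rw [hd]; push_cast; ring
        linarith
      rw [div_lt_iff₀ hδ] at h4
      have h6 : (d:ℝ) * δ ≤ F d * δ := mul_le_mul_of_nonneg_right h3 hδ.le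
      linarith
    rw [div_lt_iff₀ hNpos]
    have h3 : (j:ℝ) * F (m + 1) ≤ N / F d * F (m + 1) := mul_le_mul_of_nonneg_right h1 hFm1pos.le
    have h4 : (N:ℝ) / F d * F (m + 1) < N / F d * (δ / 4 * F d) :=
      mul_lt_mul_of_pos_left h2 (by positivity)
    have h5 : (N:ℝ) / F d * (δ / 4 * F d) = δ / 4 * N := by
      have : (F d : ℝ) ≠ 0 := by linarith
      field_simp
    linarith
  have b4 : (i:ℝ) * F (k + 1) / N < δ / 4 := by
    rw [div_lt_iff₀ hNpos]
    have h1 : (F (k + 1) : ℝ) * F (e + 1) ≤ N := by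
      have := F_mul_le' k e
      rw [← he] at this
      exact_mod_cast this
    have h2 : (p : ℝ) < δ / 4 * F (e + 1) := by rw [hke]; exact hpF
    have hFk1pos : (0:ℝ) < F (k + 1) := by
      have : (1:ℝ) ≤ F (k + 1) := by exact_mod_cast F_pos (by omega)
      linarith
    have h3 : (i:ℝ) * F (k + 1) ≤ p * F (k + 1) := mul_le_mul_of_nonneg_right hiR hFk1pos.le
    have h4 : (p:ℝ) * F (k + 1) < δ / 4 * F (e + 1) * F (k + 1) :=
      mul_lt_mul_of_pos_right h2 hFk1pos
    have h5 : δ / 4 * (F (k + 1) * F (e + 1)) ≤ δ / 4 * N :=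
      mul_le_mul_of_nonneg_left h1 (by positivity)
    nlinarith
  have b5 : 1 / (N:ℝ) < δ / 4 := by
    rw [div_lt_iff₀ hNpos]
    have h1 : (12:ℝ) / δ < N := by linarith
    rw [div_lt_iff₀ hδ] at h1
    linarith
  have hcopa : IsCoprime a N := hcopi
  refine ⟨N, F (2 * i₀ + 1), a, g * a + t' * N, hN17, ?_, F_pos (by omega), ?_,
    good_of_mult _ N g a t' hN17 hmult hcopa, ?_, ?_⟩
  · have : (n : ℝ) ≤ N := by
      have : (n : ℝ) + 17 < M := by exact_mod_cast hM2
      linarith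
    exact_mod_cast this
  · have := ratio i₀
    rw [← hi₀] at this
    exact this
  · have f1 : |(a0 : ℝ) - x * N| ≤ 1 := by
      have h1 := Int.floor_le (x * N)
      have h2 := Int.lt_floor_add_one (x * N)
      rw [ha0, abs_le]
      constructor <;> linarith
    have e : (a : ℝ) / N - x = ((a0 : ℝ) - x * N) / N + j * F (m + 1) / N + i * F (k + 1) / N := by
      rw [ha]
      push_cast
      field_simp
      ring
    rw [e]
    have g1 : |((a0 : ℝ) - x * N) / N| ≤ 1 / N := by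
      rw [abs_div, abs_of_pos hNpos]
      gcongr
    have g2 : |(j:ℝ) * F (m + 1) / N| = j * F (m + 1) / N := abs_of_nonneg (by positivity)
    have hFk1pos : (0:ℝ) ≤ F (k + 1) := by exact_mod_cast F_nonneg _
    have g3 : |(i:ℝ) * F (k + 1) / N| = i * F (k + 1) / N := abs_of_nonneg (by positivity)
    have g4 := abs_add_le (((a0 : ℝ) - x * N) / N + j * F (m + 1) / N) (i * F (k + 1) / N)
    have g5 := abs_add_le (((a0 : ℝ) - x * N) / N) (j * F (m + 1) / N)
    linarith
  · have e : ((g * a + t' * N : ℤ) : ℝ) / N - y = (j * φ - (y - g * a0 / N) - t) + i * φk := by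
      rw [ha, ht', hφ, hφk]
      push_cast
      field_simp
      ring
    rw [e]
    have g1 := abs_add_le (j * φ - (y - g * a0 / N) - t) (i * φk)
    linarith

end Pool.Agent.Y209.FW
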