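import Pool.Agent.Y209.FW.Chain

/-!
# Density of good rational pairs with prime index Fibonacci denominators
-/

set_option autoImplicit false

namespace Pool.Agent.Y209.FW

/-- `(a/N, b/N)` is a good rational pair with constant `K`. -/
def Good (K N a b : ℤ) : Prop :=
  ∀ q p r : ℤ, 1 ≤ q → q < N → K ≤ |p * N + q * a| * |r * N + q * b|

theorem good_of_mult (K N g a t : ℤ) (hN : 2 ≤ N)
    (hg : ∀ x y : ℤ, 1 ≤ x → x < N → K ≤ x * |x * g - y * N|)
    (ha : IsCoprime a N) : Good K N a (g * a + t * N) := by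
  intro q p r hq1 hq2
  have pos : ∀ X y : ℤ, 1 ≤ X → ¬ (N ∣ X) → K ≤ X * |X * g - y * N| := by
    intro X y hX hnd
    have h1 : 0 ≤ X % N := Int.emod_nonneg _ (by omega)
    have h2 : X % N < N := Int.emod_lt_of_pos _ (by omega)
    have h3 : X % N ≠ 0 := fun h => hnd (Int.dvd_of_emod_eq_zero h)
    have h4 : 1 ≤ X % N := by omega
    have h5 : X % N ≤ X := by
      have e1 := Int.emod_add_mul_ediv X N
      have e2 : 0 ≤ X / N := Int.ediv_nonneg (by omega) (by omega)
      have e3 : 0 ≤ N * (X / N) := mul_nonneg (by omega) e2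
      linarith
    have h6 := hg (X % N) (y - (X / N) * g) h4 h2
    have h7 : (X % N) * g - (y - (X / N) * g) * N = X * g - y * N := by
      have := Int.emod_add_mul_ediv X N
      have : X % N = X - N * (X / N) := by linarith
      rw [this]; ring
    rw [h7] at h6
    have h8 : 0 ≤ |X * g - y * N| := abs_nonneg _
    nlinarith
  have hnd : ¬ (N ∣ p * N + q * a) := by
    intro h
    have h1 : N ∣ q * a := (Int.dvd_add_right (Dvd.intro_left p rfl)).mp h
    have h2 : N ∣ q := ha.symm.dvd_of_dvd_mul_right h1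
    have := Int.le_of_dvd (by omega) h2
    omega
  have e : r * N + q * (g * a + t * N) = (p * N + q * a) * g - (p * g - r - q * t) * N := by ring
  rw [e]
  set X := p * N + q * a with hX
  have hX0 : X ≠ 0 := fun h => hnd (h ▸ dvd_zero _)
  rcases lt_or_gt_of_ne hX0 with h | h
  · have := pos (-X) (-(p * g - r - q * t)) (by omega) (by simpa using hnd)
    rw [abs_of_neg h]
    have e2 : |X * g - (p * g - r - q * t) * N| = |(-X) * g - (-(p * g - r - q * t)) * N| := by
      rw [← abs_neg]; congr 1; ring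
    rw [e2]; exact this
  · have := pos X (p * g - r - q * t) (by omega) hnd
    rw [abs_of_pos h]
    exact this

/-- Multiples of a small nonzero real come close to any real modulo one. -/
theorem multiples (φ z : ℝ) (hφ : φ ≠ 0) :
    ∃ (j : ℕ) (t : ℤ), (j : ℝ) ≤ 1 / |φ| ∧ |j * φ - z - t| ≤ |φ| := by
  have key : ∀ φ z : ℝ, 0 < φ → ∃ (j : ℕ) (t : ℤ), (j : ℝ) ≤ 1 / φ ∧ |j * φ - z - t| ≤ φ := by
    intro φ z hφ
    refine ⟨⌊Int.fract z / φ⌋₊, -⌊z⌋, ?_, ?_⟩
    · refine le_trans (Nat.floor_le (div_nonneg (Int.fract_nonneg z) hφ.le)) ?_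
      gcongr
      exact (Int.fract_lt_one z).le
    · have h1 := Nat.floor_le (div_nonneg (Int.fract_nonneg z) hφ.le)
      have h2 := Nat.lt_floor_add_one (Int.fract z / φ)
      have h3 : z = Int.fract z + ⌊z⌋ := (Int.fract_add_floor z).symm
      have e : (⌊Int.fract z / φ⌋₊ : ℝ) * φ - z - ((-⌊z⌋ : ℤ) : ℝ) = (⌊Int.fract z / φ⌋₊ : ℝ) * φ - Int.fract z := by
        push_cast
        linarith
      rw [e, abs_le]
      rw [le_div_iff₀ hφ] at h1
      rw [div_lt_iff₀ hφ] at h2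
      constructor <;> nlinarith
  rcases lt_or_gt_of_ne hφ with h | h
  · obtain ⟨j, t, h1, h2⟩ := key (-φ) (-z) (by linarith)
    refine ⟨j, -t, by rwa [abs_of_neg h], ?_⟩
    rw [abs_of_neg h, ← abs_neg]
    refine le_trans (le_of_eq ?_) h2
    congr 1
    push_cast
    ring
  · obtain ⟨j, t, h1, h2⟩ := key φ z h
    exact ⟨j, t, by rwa [abs_of_pos h], by rwa [abs_of_pos h]⟩

theorem docagne (m d : ℕ) : F (m + 1) * F (m + d) - F m * F (m + d + 1) = (-1) ^ m * F d := by
  induction m with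
  | zero => simp [F]
  | succ m ih =>
    have e1 := F_add_two m
    have e2 := F_add_two (m + d)
    rw [show m + 1 + 1 = m + 2 by omega, show m + 1 + d = m + d + 1 by omega,
      show m + d + 1 + 1 = m + d + 2 by omega, e1, e2, pow_succ]
    linear_combination (-1 : ℤ) * ih

theorem docagne_abs (m d : ℕ) : |F (m + 1) * F (m + d) - F m * F (m + d + 1)| = F d := by
  rw [docagne, abs_mul, abs_pow, abs_neg, abs_one, one_pow, one_mul, abs_of_nonneg (F_nonneg d)]

theorem odd_form (i : ℕ) :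
    F (2 * i + 1) ^ 2 - 3 * F (2 * i + 1) * F (2 * i + 3) + F (2 * i + 3) ^ 2 = -1 := by
  induction i with
  | zero => simp [F, Nat.fib_add_two]
  | succ i ih =>
    have e1 := F_add_two (2 * i + 3)
    have e2 := F_add_two (2 * i + 2)
    have e3 := F_add_two (2 * i + 1)
    rw [show 2 * (i + 1) + 1 = 2 * i + 3 by omega, show 2 * (i + 1) + 3 = 2 * i + 3 + 2 by omega, e1]
    rw [show 2 * i + 3 + 1 = 2 * i + 2 + 2 by omega, e2,
      show 2 * i + 2 + 1 = 2 * i + 3 by omega]
    rw [show 2 * i + 1 + 2 = 2 * i + 3 by omega, show 2 * i + 1 + 1 = 2 * i + 2 by omega] at e3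
    have e4 : F (2 * i + 2) = F (2 * i + 3) - F (2 * i + 1) := by linarith
    rw [e4]
    linear_combination ih

/-- The constant. -/
theorem ratio (i : ℕ) : (3 - √5) / 2 * (F (2 * i + 3) : ℝ) ≤ (F (2 * i + 1) : ℝ) := by
  by_contra hlt
  push Not at hlt
  have h := odd_form i
  have hR : (F (2 * i + 1) : ℝ) ^ 2 - 3 * F (2 * i + 1) * F (2 * i + 3) + (F (2 * i + 3) : ℝ) ^ 2
      = -1 := by exact_mod_cast h
  have h5 : √5 * √5 = 5 := Real.mul_self_sqrt (by norm_num)
  have h50 : 0 ≤ √5 := Real.sqrt_nonneg 5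
  have hN : (0:ℝ) ≤ F (2 * i + 3) := by exact_mod_cast F_nonneg _
  set K : ℝ := (F (2 * i + 1) : ℝ)
  set N : ℝ := (F (2 * i + 3) : ℝ)
  have h2 : K < (3 + √5) / 2 * N := by nlinarith
  have h3 : 0 < ((3 - √5) / 2 * N - K) * ((3 + √5) / 2 * N - K) :=
    mul_pos (by linarith) (by linarith)
  have h4 : ((3 - √5) / 2 * N - K) * ((3 + √5) / 2 * N - K) = K ^ 2 - 3 * K * N + N ^ 2 := by
    linear_combination (-(N ^ 2) / 4) * h5
  linarith

theorem le_F (n : ℕ) (h : 5 ≤ n) : (n : ℝ) ≤ (F n : ℝ) := by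
  have := Nat.le_fib_self h
  simp only [F]
  exact_mod_cast this

theorem sq_le_F (n : ℕ) (h : 12 ≤ n) : (n : ℝ) ^ 2 ≤ (F n : ℝ) := by
  have key : ∀ k : ℕ, (k + 12) ^ 2 ≤ Nat.fib (k + 12) ∧ (k + 13) ^ 2 ≤ Nat.fib (k + 13) := by
    intro k
    induction k with
    | zero => decide
    | succ k ih =>
      obtain ⟨h1, h2⟩ := ih
      refine ⟨by rw [show k + 1 + 12 = k + 13 by omega]; exact h2, ?_⟩
      rw [show k + 1 + 13 = k + 12 + 2 by omega, Nat.fib_add_two,
        show k + 12 + 1 = k + 13 by omega]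
      have h3 : (k + 12 + 2) ^ 2 ≤ (k + 12) ^ 2 + (k + 13) ^ 2 := by
        ring_nf
        nlinarith [Nat.zero_le (k ^ 2), Nat.zero_le k]
      omega
  obtain ⟨k, rfl⟩ := Nat.exists_eq_add_of_le' h
  have := (key k).1
  simp only [F]
  exact_mod_cast this

end Pool.Agent.Y209.FW
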